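import Pool.Agent.N257.FP.Fin4

/-!
# Every pair of vertices is separated by a friendly partition

For every finite digraph (no loops, no multiple arcs) in which every out-degree is at least `3`
and all distinct vertices `u`, `v` there is a friendly partition with `u` and `v` in different
parts. This answers Q2 (every pair is separated), and it answers Q1 with `d = 3`, `s = 2`.

Idea of the proof. It is enough to find two disjoint self-supporting sets containing `u` and `v`.
Take a smallest counterexample in which `u` and `v` need only two out-neighbours apart from each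
other. Contractions give: no digon at a root (`Ctx.k0`), every arc has a common in-neighbour
(`Ctx.l`, `Ctx.m`), every self-supporting set `T` of nonroots such that no other nonroot has two
out-neighbours in `T` contains the out-neighbours of both roots (`Ctx.c`), and the two roots have
different out-neighbourhoods (`Ctx.f6`). A smallest such `T` is then everything (`Ctx.toB`), so the
nonroots consist of a chordless cycle `K` whose vertices have an arc to a root, and of an acyclic
rest `J` (`CtxB.exists_fin`); a short analysis from the source of `J` ends the proof.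
-/

namespace Pool.Agent.Results.MP_97603a_co.PairsSeparated

open Pool.Agent.N257.FP

theorem result {V : Type*} [Finite V] (Adj : V → V → Prop) (hirr : ∀ x, ¬ Adj x x)
    (hdeg : ∀ x, 3 ≤ Set.ncard {y | Adj x y}) (u v : V) (huv : u ≠ v) :
    ∃ U W : Set V, U ∪ W = Set.univ ∧ Disjoint U W ∧ u ∈ U ∧ v ∈ W ∧
      (∀ x ∈ U, ∃ y ∈ U, Adj x y) ∧ (∀ x ∈ W, ∃ y ∈ W, Adj x y) := by
  classical
  have : Fintype V := Fintype.ofFinite V
  set N : V → Finset V := fun x => Finset.univ.filter (fun y => Adj x y) with hN
  have memN : ∀ x y, y ∈ N x ↔ Adj x y := by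
    intro x y
    simp [hN]
  have hcard : ∀ x, 3 ≤ (N x).card := by
    intro x
    have h1 := hdeg x
    have h2 : {y | Adj x y} = (↑(N x) : Set V) := by
      ext y
      simp [hN]
    rwa [h2, Set.ncard_coe_finset] at h1
  set N' : V → Finset V := fun x =>
    if x = u then (N u).erase v else if x = v then (N v).erase u else N x with hN'
  have eu : N' u = (N u).erase v := by simp [hN']
  have ev : N' v = (N v).erase u := by simp [hN', huv.symm]
  have eo : ∀ x, x ≠ u → x ≠ v → N' x = N x := by
    intro x h1 h2
    simp [hN', h1, h2]
  have hle : ∀ x, N' x ⊆ N x := by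
    intro x
    by_cases h1 : x = u
    · subst h1
      rw [eu]
      exact Finset.erase_subset _ _
    by_cases h2 : x = v
    · subst h2
      rw [ev]
      exact Finset.erase_subset _ _
    · rw [eo x h1 h2]
  have hyp : Hyp (Finset.univ : Finset V) N' u v :=
    { hu := Finset.mem_univ _
      hv := Finset.mem_univ _
      huv := huv
      sub := fun x _ => Finset.subset_univ _
      irr := fun x _ hx => hirr x ((memN x x).1 (hle x hx))
      uv := by rw [eu]; simp
      vu := by rw [ev]; simp
      du := by
        rw [eu]
        have h1 := hcard u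
        have h2 := Finset.pred_card_le_card_erase (s := N u) (a := v)
        omega
      dv := by
        rw [ev]
        have h1 := hcard v
        have h2 := Finset.pred_card_le_card_erase (s := N v) (a := u)
        omega
      d := fun x _ h1 h2 => by
        rw [eo x h1 h2]
        exact hcard x }
  obtain ⟨U, W, _, _, hd, hu, hv, sU, sW⟩ := (main hyp).mono (fun x _ => hle x)
  obtain ⟨M, hMX, hsM, hMmax, hMout⟩ := exists_max_sup N (Finset.univ \ W)
  have hUM : U ⊆ M := by
    apply hMmax U _ sU
    intro x hx
    exact Finset.mem_sdiff.2 ⟨Finset.mem_univ _, Finset.disjoint_left.1 hd hx⟩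
  have hMW : ∀ x ∈ W, x ∉ M := fun x hx hxM => (Finset.mem_sdiff.1 (hMX hxM)).2 hx
  refine ⟨(↑M : Set V), (↑M : Set V)ᶜ, Set.union_compl_self _, disjoint_compl_right, ?_, ?_, ?_, ?_⟩
  · exact hUM hu
  · exact fun hh => hMW v hv hh
  · intro x hx
    obtain ⟨y, hy, hy'⟩ := hsM x hx
    exact ⟨y, hy, (memN x y).1 hy'⟩
  · intro x hx
    have hxM : x ∉ M := hx
    by_cases hxW : x ∈ W
    · obtain ⟨y, hy, hy'⟩ := sW x hxW
      exact ⟨y, fun hh => hMW y hy hh, (memN x y).1 hy'⟩
    · have h1 := hMout x (Finset.mem_sdiff.2 ⟨Finset.mem_univ _, hxW⟩) hxM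
      obtain ⟨y, hy⟩ : (N x).Nonempty := by
        rw [← Finset.card_pos]
        have := hcard x
        omega
      exact ⟨y, fun hh => h1 y hy hh, (memN x y).1 hy⟩

end Pool.Agent.Results.MP_97603a_co.PairsSeparated
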